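import Mathlib

namespace Pool.Agent.H.MP_d6a58d_co
open Finset
open Classical

noncomputable def fs {α : Type*} [Fintype α] (P : α → Prop) : Finset α := univ.filter P

@[simp] lemma mem_fs {α : Type*} [Fintype α] {P : α → Prop} {x : α} : x ∈ fs P ↔ P x := by
  simp [fs]

lemma sum_fs_ite {α M : Type*} [Fintype α] [AddCommMonoid M] (P Q : α → Prop) [DecidablePred Q]
    (f : α → M) : ∑ x ∈ fs P, (if Q x then f x else 0) = ∑ x ∈ fs (fun x => P x ∧ Q x), f x := by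
  rw [← sum_filter]
  congr 1
  ext x; simp

variable {V X : Type*} [Fintype V] [Fintype X] [PartialOrder X]

structure Sys (vs : X → Finset V) (side : X → Finset V → Prop) : Prop where
  card3 : ∀ σ, (vs σ).card = 3
  A : ∀ s : Finset V, s.card = 2 → ∀ σ σ', s ⊆ vs σ → s ⊆ vs σ' → (side σ s ↔ side σ' s) →
    σ ≤ σ' ∨ σ' ≤ σ
  B : ∀ s : Finset V, s.card = 2 → ∀ σ σ', s ⊆ vs σ → s ⊆ vs σ' → σ ≤ σ' → (side σ s ↔ side σ' s)
  C : ∀ s : Finset V, s.card = 2 → ∀ σ τ ρ, σ ≤ τ → s ⊆ vs σ → ¬ s ⊆ vs τ → s ⊆ vs ρ → ρ ≤ τ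

noncomputable def I (vs : X → Finset V) (W : X → ℚ) (τ : X) (s : Finset V) : ℚ :=
  ∑ σ ∈ fs (fun σ : X => σ ≤ τ ∧ s ⊆ vs σ), W σ

noncomputable def J (vs : X → Finset V) (W : X → ℚ) (τ : X) (s : Finset V) : ℚ :=
  ∑ σ ∈ fs (fun σ : X => σ < τ ∧ s ⊆ vs σ), W σ

variable {vs : X → Finset V} {side : X → Finset V → Prop} {W : X → ℚ}

lemma I_eq (τ : X) (s : Finset V) (hs : s ⊆ vs τ) : I vs W τ s = W τ + J vs W τ s := by
  unfold I J
  rw [← sum_insert (by simp)]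
  congr 1
  ext σ
  simp only [mem_fs, mem_insert]
  constructor
  · rintro ⟨h1, h2⟩
    rcases h1.eq_or_lt with h | h
    · exact Or.inl h
    · exact Or.inr ⟨h, h2⟩
  · rintro (rfl | ⟨h1, h2⟩)
    · exact ⟨le_rfl, hs⟩
    · exact ⟨h1.le, h2⟩

def Cong (x y : ℚ) : Prop := ∃ k : ℤ, x = y + k

lemma Cong.symm {x y : ℚ} (h : Cong x y) : Cong y x := by
  obtain ⟨k, hk⟩ := h; exact ⟨-k, by rw [hk]; push_cast; ring⟩

lemma Cong.trans {x y z : ℚ} (h : Cong x y) (h' : Cong y z) : Cong x z := by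
  obtain ⟨k, hk⟩ := h; obtain ⟨l, hl⟩ := h'; exact ⟨k + l, by rw [hk, hl]; push_cast; ring⟩

lemma Cong.neg {x y : ℚ} (h : Cong x y) : Cong (-x) (-y) := by
  obtain ⟨k, hk⟩ := h; exact ⟨-k, by rw [hk]; push_cast; ring⟩

lemma Cong.refl (x : ℚ) : Cong x x := ⟨0, by simp⟩

/-- children of `τ` -/
def Ch (τ σ : X) : Prop := Maximal (· < τ) σ

lemma ex_ch {τ σ : X} (h : σ < τ) : ∃ ρ, σ ≤ ρ ∧ Ch τ ρ := by
  obtain ⟨ρ, h1, h2⟩ := Finite.exists_le_maximal (p := (· < τ)) h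
  exact ⟨ρ, h1, h2⟩

lemma side_sum (h : Sys vs side) {M : Type*} [AddCommGroup M] (φ : ℚ → M) (h0 : φ 0 = 0)
    (τ : X) (s : Finset V) (hs : s.card = 2) (c : X → M)
    (hc : ∀ σ, Ch τ σ → s ⊆ vs σ → c σ = φ (I vs W σ s))
    (hH : ∀ σ ρ, σ ≤ ρ → Ch τ ρ → s ⊆ vs σ → s ⊆ vs ρ) (b : Prop) :
    ∑ σ ∈ fs (fun σ : X => (Ch τ σ ∧ s ⊆ vs σ) ∧ (side σ s ↔ b)), c σ =
      φ (∑ σ ∈ fs (fun σ : X => (σ < τ ∧ s ⊆ vs σ) ∧ (side σ s ↔ b)), W σ) := by
  by_cases he : ∃ σ, (σ < τ ∧ s ⊆ vs σ) ∧ (side σ s ↔ b)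
  · obtain ⟨σ, ⟨h1, h2⟩, h3⟩ := he
    obtain ⟨ρ, r1, r2⟩ := ex_ch h1
    have r3 := hH σ ρ r1 r2 h2
    have r4 : side ρ s ↔ b := (h.B s hs σ ρ h2 r3 r1).symm.trans h3
    have top : ∀ σ', σ' < τ → s ⊆ vs σ' → (side σ' s ↔ b) → σ' ≤ ρ := by
      intro σ' a1 a2 a3
      rcases h.A s hs σ' ρ a2 r3 (a3.trans r4.symm) with a | a
      · exact a
      · exact r2.2 a1 a
    have e1 : fs (fun σ => (Ch τ σ ∧ s ⊆ vs σ) ∧ (side σ s ↔ b)) = {ρ} := by
      ext σ'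
      simp only [mem_fs, mem_singleton]
      constructor
      · rintro ⟨⟨a1, a2⟩, a3⟩
        have := top σ' a1.1 a2 a3
        exact le_antisymm this (a1.2 r2.1 this)
      · rintro rfl; exact ⟨⟨r2, r3⟩, r4⟩
    rw [e1, sum_singleton, hc ρ r2 r3]
    congr 1
    unfold I
    congr 1
    ext σ'
    simp only [mem_fs]
    constructor
    · rintro ⟨a1, a2⟩
      exact ⟨⟨lt_of_le_of_lt a1 r2.1, a2⟩, (h.B s hs σ' ρ a2 r3 a1).trans r4⟩
    · rintro ⟨⟨a1, a2⟩, a3⟩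
      exact ⟨top σ' a1 a2 a3, a2⟩
  · push Not at he
    rw [sum_eq_zero, sum_eq_zero, h0]
    · intro σ hσ
      rw [mem_fs] at hσ
      exact absurd hσ.2 (by have := he σ hσ.1; tauto)
    · intro σ hσ
      rw [mem_fs] at hσ
      exact absurd hσ.2 (by have := he σ ⟨hσ.1.1.1, hσ.1.2⟩; tauto)

lemma split_side {M : Type*} [AddCommMonoid M] (P : X → Prop) (s : Finset V) (c : X → M)
    (b : Prop) :
    ∑ σ ∈ fs (fun σ : X => P σ), c σ = ∑ σ ∈ fs (fun σ : X => P σ ∧ (side σ s ↔ b)), c σ + ∑ σ ∈ fs (fun σ : X => P σ ∧ (side σ s ↔ ¬ b)), c σ := by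
  rw [← sum_filter_add_sum_filter_not (fs P) (fun σ => side σ s ↔ b)]
  congr 2
  · ext σ; simp
  · ext σ
    simp only [mem_fs, mem_filter]
    tauto

/-- the edge sums of the children weights -/
lemma edge_sum (h : Sys vs side) (hW : ∀ s : Finset V, s.card = 2 → Cong (∑ σ ∈ fs (fun σ : X => s ⊆ vs σ), W σ) 0)
    {M : Type*} [AddCommGroup M] (φ : ℚ → M) (h0 : φ 0 = 0)
    (hper : ∀ x y, Cong x y → φ x = φ y) (hodd : ∀ x, φ x + φ (-x) = 0)
    (τ : X) (c : X → M)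
    (hc : ∀ σ, Ch τ σ → ∀ s : Finset V, s.card = 2 → s ⊆ vs σ → c σ = φ (I vs W σ s))
    (s : Finset V) (hs : s.card = 2) :
    ∑ σ ∈ fs (fun σ : X => Ch τ σ ∧ s ⊆ vs σ), c σ = if s ⊆ vs τ then φ (J vs W τ s) else 0 := by
  split_ifs with hτ
  · have hH : ∀ σ ρ, σ ≤ ρ → Ch τ ρ → s ⊆ vs σ → s ⊆ vs ρ := by
      intro σ ρ a1 a2 a3
      by_contra a4
      exact absurd (h.C s hs σ ρ τ a1 a3 a4 hτ) (not_le_of_gt a2.1)
    rw [split_side (side := side) _ s c (side τ s),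
      side_sum (W := W) h φ h0 τ s hs c (fun σ a b => hc σ a s hs b) hH,
      side_sum (W := W) h φ h0 τ s hs c (fun σ a b => hc σ a s hs b) hH]
    have e : ∑ σ ∈ fs (fun σ : X => (σ < τ ∧ s ⊆ vs σ) ∧ (side σ s ↔ ¬ side τ s)), W σ = 0 := by
      apply sum_eq_zero
      intro σ hσ
      rw [mem_fs] at hσ
      have := h.B s hs σ τ hσ.1.2 hτ hσ.1.1.le
      exact absurd hσ.2 (by tauto)
    unfold J
    rw [split_side (side := side) (fun σ => σ < τ ∧ s ⊆ vs σ) s W (side τ s), e, h0, add_zero,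
      add_zero]
  · by_cases he : ∃ σ, Ch τ σ ∧ s ⊆ vs σ
    · obtain ⟨σ0, b1, b2⟩ := he
      have hH : ∀ σ ρ, σ ≤ ρ → Ch τ ρ → s ⊆ vs σ → s ⊆ vs ρ := by
        intro σ ρ a1 a2 a3
        by_contra a4
        have a5 := h.C s hs σ ρ σ0 a1 a3 a4 b2
        have : σ0 = ρ := le_antisymm a5 (b1.2 a2.1 a5)
        exact a4 (this ▸ b2)
      rw [split_side (side := side) _ s c True,
        side_sum (W := W) h φ h0 τ s hs c (fun σ a b => hc σ a s hs b) hH,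
        side_sum (W := W) h φ h0 τ s hs c (fun σ a b => hc σ a s hs b) hH]
      have h1 := hW s hs
      have e : fs (fun σ => s ⊆ vs σ) = fs fun σ => σ < τ ∧ s ⊆ vs σ := by
        ext σ
        simp only [mem_fs]
        refine ⟨fun a => ⟨lt_of_le_of_ne (h.C s hs σ0 τ σ b1.1.le b2 hτ a) ?_, a⟩, fun a => a.2⟩
        rintro rfl; exact hτ a
      rw [e, split_side (side := side) (fun σ => σ < τ ∧ s ⊆ vs σ) s W True] at h1
      obtain ⟨k, hk⟩ := h1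
      rw [hper _ (-(∑ σ ∈ fs (fun σ : X => (σ < τ ∧ s ⊆ vs σ) ∧ (side σ s ↔ ¬ True)), W σ)) ⟨k, by linarith⟩,
        add_comm, hodd]
    · push Not at he
      apply sum_eq_zero
      intro σ hσ
      rw [mem_fs] at hσ
      exact absurd hσ.2 (he σ hσ.1)

lemma count_sum {M : Type*} [AddCommGroup M] (P : X → Prop) (c : X → M) (Q : Finset V → Prop) :
    ∑ s ∈ fs (fun s : Finset V => Q s), ∑ σ ∈ fs (fun σ : X => P σ ∧ s ⊆ vs σ), c σ =
      ∑ σ ∈ fs (fun σ : X => P σ), (fs fun s => Q s ∧ s ⊆ vs σ).card • c σ := by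
  have : ∀ s : Finset V, ∑ σ ∈ fs (fun σ : X => P σ ∧ s ⊆ vs σ), c σ = ∑ σ ∈ fs (fun σ : X => P σ), if s ⊆ vs σ then c σ else 0 := by
    intro s; rw [sum_fs_ite]
  simp only [this]
  rw [sum_comm]
  refine sum_congr rfl fun σ _ => ?_
  rw [sum_fs_ite, sum_const]

lemma pairs3 {a b c : V} (hab : a ≠ b) (hbc : b ≠ c) (hac : a ≠ c) (s : Finset V) :
    (s.card = 2 ∧ s ⊆ {a, b, c}) ↔ s = {a, b} ∨ s = {b, c} ∨ s = {a, c} := by
  constructor
  · rintro ⟨h1, h2⟩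
    obtain ⟨x, y, hxy, rfl⟩ := card_eq_two.1 h1
    have hx := h2 (mem_insert_self x {y})
    have hy := h2 (mem_insert_of_mem (mem_singleton_self y))
    simp only [mem_insert, mem_singleton] at hx hy
    rcases hx with rfl | rfl | rfl <;> rcases hy with rfl | rfl | rfl <;>
      first | exact absurd rfl hxy | simp [pair_comm]
  · rintro (rfl | rfl | rfl)
    · exact ⟨card_pair hab, by intro x; simp; tauto⟩
    · exact ⟨card_pair hbc, by intro x; simp; tauto⟩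
    · exact ⟨card_pair hac, by intro x; simp; tauto⟩

lemma ne1 {a b c : V} (hab : a ≠ b) (hac : a ≠ c) : ({a, b} : Finset V) ≠ {b, c} := by
  intro h
  have : a ∈ ({b, c} : Finset V) := h ▸ mem_insert_self _ _
  simp [hab, hac] at this

lemma sum3 {M : Type*} [AddCommMonoid M] {a b c : V} (hab : a ≠ b) (hbc : b ≠ c) (hac : a ≠ c)
    (f : Finset V → M) :
    ∑ s ∈ fs (fun s : Finset V => s.card = 2 ∧ s ⊆ {a, b, c}), f s = f {a, b} + f {b, c} + f {a, c} := by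
  have : (fs fun s : Finset V => s.card = 2 ∧ s ⊆ {a, b, c}) = {{a, b}, {b, c}, {a, c}} := by
    ext s; simp only [mem_fs, pairs3 hab hbc hac, mem_insert, mem_singleton]
  have n1 := ne1 hab hac
  have n2 : ({a, b} : Finset V) ≠ {a, c} := by rw [pair_comm a b]; exact ne1 hab.symm hbc
  have n3 : ({b, c} : Finset V) ≠ {a, c} := by rw [pair_comm a c]; exact ne1 hbc hab.symm
  rw [this, sum_insert (by simp [n1, n2]), sum_pair n3, add_assoc]

lemma inv (h : Sys vs side) (hW : ∀ s : Finset V, s.card = 2 → Cong (∑ σ ∈ fs (fun σ : X => s ⊆ vs σ), W σ) 0)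
    {M : Type*} [AddCommGroup M] (φ : ℚ → M) (h0 : φ 0 = 0)
    (hper : ∀ x y, Cong x y → φ x = φ y) (hodd : ∀ x, φ x + φ (-x) = 0) (τ : X)
    (ih : ∀ σ < τ, ∀ s s' : Finset V, s.card = 2 → s'.card = 2 → s ⊆ vs σ → s' ⊆ vs σ →
      Cong (J vs W σ s) (J vs W σ s'))
    {a b c : V} (hab : a ≠ b) (hbc : b ≠ c) (hac : a ≠ c) (hτ : vs τ = {a, b, c}) :
    (∃ z : M, φ (J vs W τ {a, b}) + φ (J vs W τ {b, c}) + φ (J vs W τ {a, c}) = 3 • z) ∧
    (∃ z : M, φ (J vs W τ {a, b}) + φ (J vs W τ {a, c}) = 2 • z) := by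
  have hex : ∀ σ, ∃ s : Finset V, s ⊆ vs σ ∧ s.card = 2 := fun σ =>
    exists_subset_card_eq (by rw [h.card3]; norm_num)
  choose e e1 e2 using hex
  let c' : X → M := fun σ => φ (I vs W σ (e σ))
  have hc : ∀ σ, Ch τ σ → ∀ s : Finset V, s.card = 2 → s ⊆ vs σ → c' σ = φ (I vs W σ s) := by
    intro σ a1 s a2 a3
    apply hper
    rw [I_eq _ _ (e1 σ), I_eq _ _ a3]
    obtain ⟨k, hk⟩ := ih σ a1.1 _ _ (e2 σ) a2 (e1 σ) a3
    exact ⟨k, by rw [hk]; ring⟩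
  have es := edge_sum h hW φ h0 hper hodd τ c' hc
  constructor
  · have h1 := count_sum (vs := vs) (Ch τ) c' (fun s => s.card = 2)
    rw [sum_congr rfl (fun s hs => es s ((mem_fs (P := fun s : Finset V => s.card = 2)).1 hs)), sum_fs_ite, hτ,
      sum3 hab hbc hac] at h1
    refine ⟨∑ σ ∈ fs (fun σ : X => Ch τ σ), c' σ, ?_⟩
    rw [h1, smul_sum]
    refine sum_congr rfl fun σ _ => ?_
    congr 1
    obtain ⟨x, y, z, hxy, hxz, hyz, hv⟩ := card_eq_three.1 (h.card3 σ)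
    rw [hv, card_eq_sum_ones, sum3 hxy hyz hxz]
  · have h1 := count_sum (vs := vs) (Ch τ) c' (fun s => s.card = 2 ∧ a ∈ s)
    rw [sum_congr rfl (fun s hs => es s (mem_fs.1 hs).1), sum_fs_ite] at h1
    have h2 : ∀ (t : Finset V) (f : Finset V → M), ∑ s ∈ fs (fun s : Finset V => (s.card = 2 ∧ a ∈ s) ∧ s ⊆ t), f s =
        ∑ s ∈ fs (fun s : Finset V => s.card = 2 ∧ s ⊆ t), if a ∈ s then f s else 0 := by
      intro t f
      rw [sum_fs_ite]
      congr 1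
      ext s; simp only [mem_fs]; tauto
    rw [h2, hτ, sum3 hab hbc hac] at h1
    simp only [mem_insert, mem_singleton, true_or, if_true, hab, hac, or_self, if_false,
      add_zero] at h1
    refine ⟨∑ σ ∈ fs (fun σ : X => Ch τ σ), if a ∈ vs σ then c' σ else 0, ?_⟩
    rw [h1, smul_sum]
    refine sum_congr rfl fun σ _ => ?_
    obtain ⟨x, y, z, hxy, hxz, hyz, hv⟩ := card_eq_three.1 (h.card3 σ)
    rw [← sum_const, h2, hv, sum3 hxy hyz hxz]
    by_cases ax : a = x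
    · subst ax; simp [hxy, hxz, two_smul]
    · by_cases ay : a = y
      · subst ay; simp [ax, hyz, two_smul]
      · by_cases az : a = z
        · subst az; simp [ax, ay, two_smul]
        · simp [ax, ay, az]


lemma cong_zmod2 (y0 : ℚ) (hy : ¬ Cong y0 0) :
    ∃ φ : ℚ → ZMod 2, φ 0 = 0 ∧ (∀ x y, Cong x y → φ x = φ y) ∧ (∀ x, φ x + φ (-x) = 0) ∧
      ∀ x, φ x = 1 ↔ (Cong x y0 ∨ Cong x (-y0)) := by
  refine ⟨fun x => if Cong x y0 ∨ Cong x (-y0) then 1 else 0, ?_, ?_, ?_, ?_⟩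
  · beta_reduce
    rw [if_neg]
    rintro (h | h)
    · exact hy h.symm
    · exact hy (by simpa using h.symm.neg)
  · intro x y h
    have : (Cong x y0 ∨ Cong x (-y0)) ↔ (Cong y y0 ∨ Cong y (-y0)) :=
      ⟨fun a => a.imp h.symm.trans h.symm.trans, fun a => a.imp h.trans h.trans⟩
    simp only [this]
  · intro x
    have : (Cong (-x) y0 ∨ Cong (-x) (-y0)) ↔ (Cong x y0 ∨ Cong x (-y0)) := by
      constructor
      · rintro (a | a)
        · exact Or.inr (by simpa using a.neg)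
        · exact Or.inl (by simpa using a.neg)
      · rintro (a | a)
        · exact Or.inr a.neg
        · exact Or.inl (by simpa using a.neg)
    simp only [this]
    split_ifs <;> decide
  · intro x
    beta_reduce
    split_ifs with h
    · simp [h]
    · simp [h]

lemma cong_zmod3 (y0 : ℚ) (hy : ¬ Cong y0 (-y0)) :
    ∃ φ : ℚ → ZMod 3, φ 0 = 0 ∧ (∀ x y, Cong x y → φ x = φ y) ∧ (∀ x, φ x + φ (-x) = 0) ∧
      (∀ x, Cong x y0 → φ x = 1) ∧ ∀ x, Cong x (-y0) → φ x = -1 := by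
  refine ⟨fun x => (if Cong x y0 then 1 else 0) - (if Cong x (-y0) then 1 else 0), ?_, ?_, ?_, ?_, ?_⟩
  · have : Cong 0 y0 ↔ Cong 0 (-y0) := ⟨fun a => by simpa using a.neg, fun a => by simpa using a.neg⟩
    simp only [this, sub_self]
  · intro x y h
    have h1 : Cong x y0 ↔ Cong y y0 := ⟨h.symm.trans, h.trans⟩
    have h2 : Cong x (-y0) ↔ Cong y (-y0) := ⟨h.symm.trans, h.trans⟩
    simp only [h1, h2]
  · intro x
    have h1 : Cong (-x) y0 ↔ Cong x (-y0) := ⟨fun a => by simpa using a.neg, fun a => by simpa using a.neg⟩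
    have h2 : Cong (-x) (-y0) ↔ Cong x y0 := ⟨fun a => by simpa using a.neg, fun a => a.neg⟩
    simp only [h1, h2]
    ring
  · intro x h
    beta_reduce
    rw [if_pos h, if_neg (fun a => hy (h.symm.trans a)), sub_zero]
  · intro x h
    beta_reduce
    rw [if_pos h, if_neg (fun a => hy (a.symm.trans h)), zero_sub]

lemma key (h : Sys vs side)
    (hW : ∀ s : Finset V, s.card = 2 → Cong (∑ σ ∈ fs (fun σ : X => s ⊆ vs σ), W σ) 0) (τ : X) :
    ∀ s s' : Finset V, s.card = 2 → s'.card = 2 → s ⊆ vs τ → s' ⊆ vs τ →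
      Cong (J vs W τ s) (J vs W τ s') := by
  induction τ using WellFoundedLT.induction with
  | ind τ ih =>
  have pm : ∀ a b c : V, a ≠ b → b ≠ c → a ≠ c → vs τ = {a, b, c} → ¬ Cong (J vs W τ {a, b}) 0 →
      Cong (J vs W τ {a, c}) (J vs W τ {a, b}) ∨ Cong (J vs W τ {a, c}) (-J vs W τ {a, b}) := by
    intro a b c hab hbc hac hτ hy
    obtain ⟨φ, p0, p1, p2, p3⟩ := cong_zmod2 _ hy
    obtain ⟨z, hz⟩ := (inv h hW φ p0 p1 p2 τ ih hab hbc hac hτ).2
    rw [(p3 _).2 (Or.inl (Cong.refl _))] at hz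
    apply (p3 _).1
    revert hz
    generalize φ (J vs W τ {a, c}) = u
    revert u z
    decide
  have main : ∀ a b c : V, a ≠ b → b ≠ c → a ≠ c → vs τ = {a, b, c} → ¬ Cong (J vs W τ {a, b}) 0 →
      Cong (J vs W τ {a, c}) (J vs W τ {a, b}) := by
    intro a b c hab hbc hac hτ hy
    have h1 := pm a b c hab hbc hac hτ hy
    have h2 := pm b a c hab.symm hac hbc (by rw [hτ, insert_comm]) (by rwa [pair_comm])
    rw [pair_comm b a] at h2
    by_cases hy2 : Cong (J vs W τ {a, b}) (-J vs W τ {a, b})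
    · rcases h1 with h1 | h1
      · exact h1
      · exact h1.trans hy2.symm
    · obtain ⟨φ, p0, p1, p2, p3, p4⟩ := cong_zmod3 _ hy2
      obtain ⟨z, hz⟩ := (inv h hW φ p0 p1 p2 τ ih hab hbc hac hτ).1
      rcases h1 with h1 | h1
      · exact h1
      · exfalso
        rw [p3 _ (Cong.refl _), p4 _ h1] at hz
        rcases h2 with h2 | h2
        · rw [p3 _ h2] at hz; revert z; decide
        · rw [p4 _ h2] at hz; revert z; decide
  have main2 : ∀ a b c : V, a ≠ b → b ≠ c → a ≠ c → vs τ = {a, b, c} →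
      Cong (J vs W τ {a, c}) (J vs W τ {a, b}) := by
    intro a b c hab hbc hac hτ
    by_cases hy : Cong (J vs W τ {a, b}) 0
    · by_cases hy' : Cong (J vs W τ {a, c}) 0
      · exact hy'.trans hy.symm
      · exact (main a c b hac hbc.symm hab (by rw [hτ, pair_comm]) hy').symm
    · exact main a b c hab hbc hac hτ hy
  obtain ⟨a, b, c, hab, hac, hbc, hv⟩ := card_eq_three.1 (h.card3 τ)
  have e1 := main2 a b c hab hbc hac hv
  have e2 := main2 b a c hab.symm hac hbc (by rw [hv, insert_comm])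
  rw [pair_comm b a] at e2
  intro s s' a1 a2 a3 a4
  rw [hv] at a3 a4
  have all : ∀ s : Finset V, s.card = 2 → s ⊆ {a, b, c} → Cong (J vs W τ s) (J vs W τ {a, b}) := by
    intro s b1 b2
    rcases (pairs3 hab hbc hac s).1 ⟨b1, b2⟩ with rfl | rfl | rfl
    · exact Cong.refl _
    · exact e2
    · exact e1
  exact (all s a1 a3).trans (all s' a2 a4).symm

def rho (y : ℚ) : ℤ := ⌊y⌋ + ⌈y⌉

lemma rho_mono {x y : ℚ} (h : x ≤ y) : rho x ≤ rho y :=
  add_le_add (Int.floor_mono h) (Int.ceil_mono h)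

lemma rho_add (x : ℚ) (k : ℤ) : rho (x + k) = rho x + 2 * k := by
  unfold rho; rw [Int.floor_add_intCast, Int.ceil_add_intCast]; ring

lemma rho_neg (x : ℚ) : rho (-x) = - rho x := by
  unfold rho; rw [Int.floor_neg, Int.ceil_neg]; ring

lemma tele (h : Sys vs side) (N : X → ℤ) (s : Finset V) (hs : s.card = 2)
    (hN : ∀ τ, s ⊆ vs τ → N τ = rho (I vs W τ s) - rho (J vs W τ s)) (τ : X) (hτ : s ⊆ vs τ) :
    ∑ σ ∈ fs (fun σ : X => σ ≤ τ ∧ s ⊆ vs σ), N σ = rho (I vs W τ s) := by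
  induction τ using WellFoundedLT.induction with
  | ind τ ih =>
  have e : fs (fun σ : X => σ ≤ τ ∧ s ⊆ vs σ) = insert τ (fs (fun σ : X => σ < τ ∧ s ⊆ vs σ)) := by
    ext σ
    simp only [mem_fs, mem_insert]
    constructor
    · rintro ⟨h1, h2⟩
      rcases h1.eq_or_lt with h | h
      · exact Or.inl h
      · exact Or.inr ⟨h, h2⟩
    · rintro (rfl | ⟨h1, h2⟩)
      · exact ⟨le_rfl, hτ⟩
      · exact ⟨h1.le, h2⟩
  rw [e, sum_insert (by simp), hN τ hτ]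
  suffices ∑ σ ∈ fs (fun σ : X => σ < τ ∧ s ⊆ vs σ), N σ = rho (J vs W τ s) by rw [this]; ring
  by_cases he : ∃ σ, σ < τ ∧ s ⊆ vs σ
  · obtain ⟨σ0, h0⟩ := he
    obtain ⟨ρ, -, r2⟩ := Finite.exists_le_maximal (p := fun σ => σ < τ ∧ s ⊆ vs σ) h0
    have e2 : fs (fun σ : X => σ < τ ∧ s ⊆ vs σ) = fs (fun σ : X => σ ≤ ρ ∧ s ⊆ vs σ) := by
      ext σ
      simp only [mem_fs]
      constructor
      · rintro ⟨a1, a2⟩
        refine ⟨?_, a2⟩
        rcases h.A s hs σ ρ a2 r2.1.2 ((h.B s hs σ τ a2 hτ a1.le).trans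
          (h.B s hs ρ τ r2.1.2 hτ r2.1.1.le).symm) with a | a
        · exact a
        · exact r2.2 ⟨a1, a2⟩ a
      · rintro ⟨a1, a2⟩
        exact ⟨lt_of_le_of_lt a1 r2.1.1, a2⟩
    unfold J
    rw [e2, ih ρ r2.1.1 r2.1.2]
    rfl
  · push Not at he
    have e2 : fs (fun σ : X => σ < τ ∧ s ⊆ vs σ) = ∅ := by
      ext σ
      simp only [mem_fs, notMem_empty, iff_false, not_and]
      exact he σ
    unfold J
    rw [e2]
    simp [rho]

lemma tele2 (h : Sys vs side) (N : X → ℤ) (s : Finset V) (hs : s.card = 2)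
    (hN : ∀ τ, s ⊆ vs τ → N τ = rho (I vs W τ s) - rho (J vs W τ s)) (b : Prop) :
    ∑ σ ∈ fs (fun σ : X => s ⊆ vs σ ∧ (side σ s ↔ b)), N σ =
      rho (∑ σ ∈ fs (fun σ : X => s ⊆ vs σ ∧ (side σ s ↔ b)), W σ) := by
  by_cases he : ∃ σ, s ⊆ vs σ ∧ (side σ s ↔ b)
  · obtain ⟨σ0, h0⟩ := he
    obtain ⟨ρ, -, r2⟩ := Finite.exists_le_maximal (p := fun σ => s ⊆ vs σ ∧ (side σ s ↔ b)) h0
    have e2 : fs (fun σ : X => s ⊆ vs σ ∧ (side σ s ↔ b)) = fs (fun σ : X => σ ≤ ρ ∧ s ⊆ vs σ) := by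
      ext σ
      simp only [mem_fs]
      constructor
      · rintro ⟨a1, a2⟩
        refine ⟨?_, a1⟩
        rcases h.A s hs σ ρ a1 r2.1.1 (a2.trans r2.1.2.symm) with a | a
        · exact a
        · exact r2.2 ⟨a1, a2⟩ a
      · rintro ⟨a1, a2⟩
        exact ⟨a2, (h.B s hs σ ρ a2 r2.1.1 a1).trans r2.1.2⟩
    rw [e2, tele h N s hs hN ρ r2.1.1]
    rfl
  · push Not at he
    have e2 : fs (fun σ : X => s ⊆ vs σ ∧ (side σ s ↔ b)) = ∅ := by
      ext σ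
      simp only [mem_fs, notMem_empty, iff_false, not_and]
      intro a1 a2
      have := he σ a1
      tauto
    rw [e2]
    simp [rho]

theorem round (h : Sys vs side) (hW0 : ∀ σ, 0 ≤ W σ) (m : Finset V → ℕ)
    (hW : ∀ s : Finset V, s.card = 2 → ∑ σ ∈ fs (fun σ : X => s ⊆ vs σ), W σ = m s) :
    ∃ N : X → ℕ, ∀ s : Finset V, s.card = 2 → ∑ σ ∈ fs (fun σ : X => s ⊆ vs σ), N σ = 2 * m s := by
  have hW' : ∀ s : Finset V, s.card = 2 → Cong (∑ σ ∈ fs (fun σ : X => s ⊆ vs σ), W σ) 0 :=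
    fun s hs => ⟨m s, by rw [hW s hs]; simp⟩
  have hex : ∀ σ, ∃ s : Finset V, s ⊆ vs σ ∧ s.card = 2 := fun σ =>
    exists_subset_card_eq (by rw [h.card3]; norm_num)
  choose e e1 e2 using hex
  let N : X → ℤ := fun τ => rho (I vs W τ (e τ)) - rho (J vs W τ (e τ))
  have hN : ∀ s : Finset V, s.card = 2 → ∀ τ, s ⊆ vs τ →
      N τ = rho (I vs W τ s) - rho (J vs W τ s) := by
    intro s hs τ hτ
    obtain ⟨k, hk⟩ := key h hW' τ (e τ) s (e2 τ) hs (e1 τ) hτ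
    simp only [N]
    rw [I_eq _ _ (e1 τ), I_eq _ _ hτ, hk, ← add_assoc, rho_add, rho_add]
    ring
  have N0 : ∀ τ, 0 ≤ N τ := by
    intro τ
    simp only [N]
    rw [I_eq _ _ (e1 τ)]
    have := rho_mono (show J vs W τ (e τ) ≤ W τ + J vs W τ (e τ) by linarith [hW0 τ])
    linarith
  refine ⟨fun τ => (N τ).toNat, fun s hs => ?_⟩
  have : ∑ σ ∈ fs (fun σ : X => s ⊆ vs σ), N σ = 2 * m s := by
    have h1 := hW s hs
    rw [split_side (side := side) (fun σ => s ⊆ vs σ) s W True] at h1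
    rw [split_side (side := side) (fun σ => s ⊆ vs σ) s N True, tele2 h N s hs (hN s hs),
      tele2 h N s hs (hN s hs), eq_sub_of_add_eq h1, sub_eq_neg_add]
    have := rho_add (-∑ σ ∈ fs (fun σ : X => s ⊆ vs σ ∧ (side σ s ↔ ¬True)), W σ) (m s)
    push_cast at this ⊢
    rw [this, rho_neg]
    ring
  have h2 : ((∑ σ ∈ fs (fun σ : X => s ⊆ vs σ), (N σ).toNat : ℕ) : ℤ) = 2 * m s := by
    rw [← this]
    push_cast
    exact sum_congr rfl fun σ _ => Int.toNat_of_nonneg (N0 σ)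
  exact_mod_cast h2

end Pool.Agent.H.MP_d6a58d_co
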