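import Mathlib
import Pool.Agent.H.MP_d6a58d_co.A

namespace Pool.Agent.H.MP_d6a58d_co
open Finset
open Classical

def D (a b c : ℝ × ℝ) : ℝ := (b.1 - a.1) * (c.2 - a.2) - (b.2 - a.2) * (c.1 - a.1)

lemma mem_hull3 (A B C z : ℝ × ℝ) : z ∈ convexHull ℝ ({A, B, C} : Set (ℝ × ℝ)) ↔
    ∃ α β γ : ℝ, 0 ≤ α ∧ 0 ≤ β ∧ 0 ≤ γ ∧ α + β + γ = 1 ∧ z = α • A + β • B + γ • C := by
  constructor
  · intro h
    rw [convexHull_insert (by simp), convexHull_pair, mem_convexJoin] at h
    obtain ⟨x, hx, y, ⟨s, t, hs, ht, hst, rfl⟩, ⟨u, v, hu, hv, huv, rfl⟩⟩ := h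
    rw [Set.mem_singleton_iff] at hx
    subst hx
    refine ⟨u, v * s, v * t, hu, by positivity, by positivity, ?_, ?_⟩
    · linear_combination huv + v * hst
    · rw [smul_add, smul_smul, smul_smul, add_assoc]
  · rintro ⟨α, β, γ, h1, h2, h3, h4, rfl⟩
    refine mem_convexHull_of_exists_fintype (ι := Fin 3) ![α, β, γ] ![A, B, C] ?_ ?_ ?_ ?_
    · intro i; fin_cases i <;> simpa
    · simpa [Fin.sum_univ_three] using h4
    · intro i; fin_cases i <;> simp
    · simp [Fin.sum_univ_three]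

lemma D_comb (a b A B C : ℝ × ℝ) {α β γ : ℝ} (h : α + β + γ = 1) :
    D a b (α • A + β • B + γ • C) = α * D a b A + β * D a b B + γ * D a b C := by
  have : γ = 1 - α - β := by linarith
  subst this
  simp only [D, Prod.fst_add, Prod.snd_add, Prod.smul_fst, Prod.smul_snd, smul_eq_mul]
  ring

lemma bary {A B C : ℝ × ℝ} (h : D A B C ≠ 0) (z : ℝ × ℝ) :
    ∃ α β γ : ℝ, α + β + γ = 1 ∧ z = α • A + β • B + γ • C := by
  refine ⟨D B C z / D A B C, D C A z / D A B C, D A B z / D A B C, ?_, ?_⟩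
  · field_simp
    simp only [D]; ring
  · ext
    · simp only [Prod.fst_add, Prod.smul_fst, smul_eq_mul]
      field_simp
      simp only [D]; ring
    · simp only [Prod.snd_add, Prod.smul_snd, smul_eq_mul]
      field_simp
      simp only [D]; ring

lemma seg_of (A B : ℝ × ℝ) {α β : ℝ} (h1 : 0 ≤ α) (h2 : 0 ≤ β) (h : 0 < α + β) :
    (α + β)⁻¹ • (α • A + β • B) ∈ segment ℝ A B := by
  refine ⟨(α + β)⁻¹ * α, (α + β)⁻¹ * β, by positivity, by positivity, ?_, ?_⟩
  · field_simp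
  · rw [smul_add, smul_smul, smul_smul]

/-- three distinct collinear points: one is between the other two -/
lemma collinear3 {A B C : ℝ × ℝ} (hAB : A ≠ B) (h : D A B C = 0) :
    C ∈ segment ℝ A B ∨ A ∈ segment ℝ B C ∨ B ∈ segment ℝ A C := by
  have : ∃ t : ℝ, C = A + t • (B - A) := by
    by_cases h1 : B.1 - A.1 = 0
    · have h2 : B.2 - A.2 ≠ 0 := by
        intro h2
        apply hAB
        ext <;> linarith
      refine ⟨(C.2 - A.2) / (B.2 - A.2), ?_⟩
      unfold D at h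
      rw [h1, zero_mul, zero_sub, neg_eq_zero, mul_eq_zero] at h
      have h3 := h.resolve_left h2
      ext
      · simp only [Prod.fst_add, Prod.smul_fst, Prod.fst_sub, smul_eq_mul, h1]; linarith
      · simp only [Prod.snd_add, Prod.smul_snd, Prod.snd_sub, smul_eq_mul]; field_simp; ring
    · refine ⟨(C.1 - A.1) / (B.1 - A.1), ?_⟩
      unfold D at h
      ext
      · simp only [Prod.fst_add, Prod.smul_fst, Prod.fst_sub, smul_eq_mul]; field_simp; ring
      · simp only [Prod.snd_add, Prod.smul_snd, Prod.snd_sub, smul_eq_mul]; field_simp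
        linear_combination h
  obtain ⟨t, rfl⟩ := this
  rcases le_total t 0 with h0 | h0
  · right; left
    have := seg_of B (A + t • (B - A)) (α := -t) (β := 1) (by linarith) (by norm_num) (by linarith)
    convert this using 1
    have e : (-t) • B + (1:ℝ) • (A + t • (B - A)) = (-t + 1) • A := by module
    rw [e, smul_smul, inv_mul_cancel₀ (by linarith), one_smul]
  · rcases le_total t 1 with h1 | h1
    · left
      exact ⟨1 - t, t, by linarith, h0, by ring, by module⟩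
    · right; right
      have := seg_of A (A + t • (B - A)) (α := t - 1) (β := 1) (by linarith) (by norm_num) (by linarith)
      convert this using 1
      have e : (t - 1) • A + (1:ℝ) • (A + t • (B - A)) = (t - 1 + 1) • B := by module
      rw [e, smul_smul, inv_mul_cancel₀ (by linarith), one_smul]

variable {V : Type*} [Fintype V] [DecidableEq V]

structure Pl (adj : Finset V → Prop) (p : V → ℝ × ℝ) : Prop where
  inj : Function.Injective p
  seg : ∀ u v w, adj {u, v} → p w ∈ segment ℝ (p u) (p v) → w = u ∨ w = v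
  cross : ∀ u v x y z, adj {u, v} → adj {x, y} → ({u, v} : Finset V) ≠ {x, y} →
    z ∈ segment ℝ (p u) (p v) → z ∈ segment ℝ (p x) (p y) →
    ∃ w, w ∈ ({u, v} : Finset V) ∧ w ∈ ({x, y} : Finset V) ∧ z = p w

def VT (adj : Finset V → Prop) (t : Finset V) : Prop :=
  t.card = 3 ∧ ∀ s : Finset V, s.card = 2 → s ⊆ t → adj s

variable {adj : Finset V → Prop} {p : V → ℝ × ℝ}

lemma VT.ad {t : Finset V} (h : VT adj t) {u v : V} (huv : u ≠ v) (hu : u ∈ t) (hv : v ∈ t) :
    adj {u, v} := h.2 _ (card_pair huv) (by intro x; simp; rintro (rfl | rfl) <;> assumption)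

lemma pairs3' {a b c : V} (hab : a ≠ b) (hbc : b ≠ c) (hac : a ≠ c) (s : Finset V)
    (h1 : s.card = 2) (h2 : s ⊆ {a, b, c}) : s = {a, b} ∨ s = {b, c} ∨ s = {a, c} := by
  obtain ⟨x, y, hxy, rfl⟩ := card_eq_two.1 h1
  have hx := h2 (mem_insert_self x {y})
  have hy := h2 (mem_insert_of_mem (mem_singleton_self y))
  simp only [mem_insert, mem_singleton] at hx hy
  rcases hx with rfl | rfl | rfl <;> rcases hy with rfl | rfl | rfl <;>
    first | exact absurd rfl hxy | simp [pair_comm]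

lemma ne_of_card3 {a b c : V} (h : ({a, b, c} : Finset V).card = 3) : a ≠ b ∧ b ≠ c ∧ a ≠ c := by
  refine ⟨?_, ?_, ?_⟩
  · rintro rfl
    rw [insert_eq_of_mem (by simp)] at h
    have := card_le_two (a := a) (b := c); omega
  · rintro rfl
    rw [pair_eq_singleton] at h
    have := card_le_two (a := a) (b := b); omega
  · rintro rfl
    rw [insert_eq_of_mem (by simp)] at h
    have := card_le_two (a := b) (b := a); omega

lemma D_ne (hp : Pl adj p) {a b c : V} (h : VT adj {a, b, c}) : D (p a) (p b) (p c) ≠ 0 := by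
  obtain ⟨hab, hbc, hac⟩ := ne_of_card3 h.1
  intro h0
  rcases collinear3 (hp.inj.ne hab) h0 with h1 | h1 | h1
  · rcases hp.seg a b c (h.ad hab (by simp) (by simp)) h1 with e | e
    · exact hac e.symm
    · exact hbc e.symm
  · rcases hp.seg b c a (h.ad hbc (by simp) (by simp)) h1 with e | e
    · exact hab e
    · exact hac e
  · rcases hp.seg a c b (h.ad hac (by simp) (by simp)) h1 with e | e
    · exact hab e.symm
    · exact hbc e

def In (p : V → ℝ × ℝ) (z : ℝ × ℝ) (t : Finset V) : Prop := z ∈ convexHull ℝ (p '' (t : Set V))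

lemma In3 (z : ℝ × ℝ) (a b c : V) : In p z {a, b, c} ↔
    ∃ α β γ : ℝ, 0 ≤ α ∧ 0 ≤ β ∧ 0 ≤ γ ∧ α + β + γ = 1 ∧ z = α • p a + β • p b + γ • p c := by
  unfold In
  rw [← mem_hull3]
  simp [Set.image_insert_eq]

lemma In_self {t : Finset V} {v : V} (h : v ∈ t) : In p (p v) t :=
  subset_convexHull ℝ _ ⟨v, h, rfl⟩

def Le (p : V → ℝ × ℝ) (σ τ : Finset V) : Prop := ∀ v ∈ σ, In p (p v) τ

lemma Le.trans {σ τ ρ : Finset V} (h1 : Le p σ τ) (h2 : Le p τ ρ) : Le p σ ρ := by
  intro v hv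
  refine convexHull_min ?_ (convex_convexHull ℝ _) (h1 v hv)
  rintro _ ⟨w, hw, rfl⟩
  exact h2 w hw

lemma ex3 {t : Finset V} (h : t.card = 3) {a : V} (ha : a ∈ t) : ∃ b c, t = {a, b, c} := by
  have : (t.erase a).card = 2 := by rw [card_erase_of_mem ha, h]
  obtain ⟨b, c, -, e⟩ := card_eq_two.1 this
  exact ⟨b, c, by rw [← e, insert_erase ha]⟩

lemma ex3' {t : Finset V} (h : t.card = 3) {a b : V} (hab : a ≠ b) (hs : {a, b} ⊆ t) :
    ∃ c, t = {a, b, c} := by
  have : (t \ {a, b}).card = 1 := by rw [card_sdiff_of_subset hs, h, card_pair hab]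
  obtain ⟨c, e⟩ := card_eq_one.1 this
  refine ⟨c, ?_⟩
  rw [← union_sdiff_of_subset hs, e]
  ext x; simp [or_assoc]

lemma Le.antisymm (hp : Pl adj p) {σ τ : Finset V} (hσ : VT adj σ) (hτ : VT adj τ)
    (h1 : Le p σ τ) (h2 : Le p τ σ) : σ = τ := by
  apply eq_of_subset_of_card_le _ (by rw [hσ.1, hτ.1])
  intro a ha
  obtain ⟨b, c, rfl⟩ := ex3 hσ.1 ha
  obtain ⟨x, y, z, -, -, -, rfl⟩ := card_eq_three.1 hτ.1
  have hD : D (p b) (p c) (p a) ≠ 0 := by
    apply D_ne hp
    convert hσ using 1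
    ext; simp; tauto
  have hb : D (p b) (p c) (p b) = 0 := by simp [D]
  have hc : D (p b) (p c) (p c) = 0 := by simp only [D]; ring
  have aux : ∀ w, In p (p w) {a, b, c} → w ≠ a → D (p b) (p c) (p w) / D (p b) (p c) (p a) < 1 := by
    intro w hw hne
    obtain ⟨α, β, γ, a1, a2, a3, a4, a5⟩ := (In3 _ _ _ _).1 hw
    rw [a5, D_comb _ _ _ _ _ a4, hb, hc, mul_zero, mul_zero, add_zero, add_zero,
      mul_div_cancel_right₀ _ hD]
    by_contra hh
    have e1 : α = 1 := by linarith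
    have e2 : β = 0 := by linarith
    have e3 : γ = 0 := by linarith
    rw [e1, e2, e3] at a5
    exact hne (hp.inj (by simpa using a5))
  by_contra hna
  simp only [mem_insert, mem_singleton, not_or] at hna
  obtain ⟨α, β, γ, a1, a2, a3, a4, a5⟩ := (In3 _ _ _ _).1 (h1 a ha)
  have k1 := aux x (h2 x (by simp)) (Ne.symm hna.1)
  have k2 := aux y (h2 y (by simp)) (Ne.symm hna.2.1)
  have k3 := aux z (h2 z (by simp)) (Ne.symm hna.2.2)
  have e : D (p b) (p c) (p a) = α * D (p b) (p c) (p x) + β * D (p b) (p c) (p y) + γ * D (p b) (p c) (p z) := by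
    conv_lhs => rw [a5]
    exact D_comb _ _ _ _ _ a4
  have e' : 1 = α * (D (p b) (p c) (p x) / D (p b) (p c) (p a)) + β * (D (p b) (p c) (p y) / D (p b) (p c) (p a)) + γ * (D (p b) (p c) (p z) / D (p b) (p c) (p a)) := by
    field_simp
    exact e
  generalize D (p b) (p c) (p x) / D (p b) (p c) (p a) = X at *
  generalize D (p b) (p c) (p y) / D (p b) (p c) (p a) = Y at *
  generalize D (p b) (p c) (p z) / D (p b) (p c) (p a) = Z at *
  have m1 := mul_nonneg a1 (sub_pos.2 k1).le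
  have m2 := mul_nonneg a2 (sub_pos.2 k2).le
  have m3 := mul_nonneg a3 (sub_pos.2 k3).le
  have z1 : α * (1 - X) = 0 := by nlinarith
  have z2 : β * (1 - Y) = 0 := by nlinarith
  have z3 : γ * (1 - Z) = 0 := by nlinarith
  have := (mul_eq_zero.1 z1).resolve_right (sub_pos.2 k1).ne'
  have := (mul_eq_zero.1 z2).resolve_right (sub_pos.2 k2).ne'
  have := (mul_eq_zero.1 z3).resolve_right (sub_pos.2 k3).ne'
  linarith

lemma cross_aux (hp : Pl adj p) {a b x y : V} (hσ : VT adj {a, b, x}) (hτ : VT adj {a, b, y})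
    {α β γ : ℝ} (h4 : α + β + γ = 1) (h5 : p y = α • p a + β • p b + γ • p x)
    (hγ : 0 < γ) (hα : α < 0) (hβ : 0 < β) : False := by
  obtain ⟨hab, hbx, hax⟩ := ne_of_card3 hσ.1
  obtain ⟨-, hby, hay⟩ := ne_of_card3 hτ.1
  have s1 := seg_of (p a) (p y) (α := -α) (β := 1) (by linarith) (by norm_num) (by linarith)
  have s2 := seg_of (p b) (p x) hβ.le hγ.le (by linarith)
  have e : (-α) • p a + (1:ℝ) • p y = β • p b + γ • p x := by rw [h5]; module
  have e2 : -α + 1 = β + γ := by linarith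
  rw [e, e2] at s1
  have hne : ({a, y} : Finset V) ≠ {b, x} := ne1 hay hax ∘ fun h => by
    have : a ∈ ({b, x} : Finset V) := h ▸ mem_insert_self _ _
    simp [hab, hax] at this
  obtain ⟨w, w1, w2, w3⟩ := hp.cross a y b x _ (hτ.ad hay (by simp) (by simp))
    (hσ.ad hbx (by simp) (by simp)) hne s1 s2
  simp only [mem_insert, mem_singleton] at w1 w2
  have hyx : y = x := by
    rcases w1 with rfl | rfl <;> rcases w2 with h | h
    · exact absurd h hab
    · exact absurd h hax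
    · exact absurd h.symm hby
    · exact h
  subst hyx
  have hD : D (p b) (p y) (p a) ≠ 0 := by
    apply D_ne hp
    convert hσ using 1
    ext; simp; tauto
  have := D_comb (p b) (p y) (p a) (p b) (p y) h4
  rw [← h5] at this
  have hb : D (p b) (p y) (p b) = 0 := by simp [D]
  have hc : D (p b) (p y) (p y) = 0 := by simp only [D]; ring
  rw [hb, hc] at this
  exact mul_ne_zero hα.ne hD (by linarith)

lemma Le3 {a b x : V} {t : Finset V} (hs : {a, b} ⊆ t) (hx : In p (p x) t) : Le p {a, b, x} t := by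
  intro v hv
  simp only [mem_insert, mem_singleton] at hv
  rcases hv with rfl | rfl | rfl
  · exact In_self (hs (by simp))
  · exact In_self (hs (by simp))
  · exact hx

lemma propA (hp : Pl adj p) {a b x y : V} (hσ : VT adj {a, b, x}) (hτ : VT adj {a, b, y})
    (h : 0 < D (p a) (p b) (p x) ↔ 0 < D (p a) (p b) (p y)) :
    Le p {a, b, x} {a, b, y} ∨ Le p {a, b, y} {a, b, x} := by
  have d1 := D_ne hp hσ
  have d2 := D_ne hp hτ
  obtain ⟨α, β, γ, h4, h5⟩ := bary d1 (p y)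
  have e := D_comb (p a) (p b) (p a) (p b) (p x) h4
  rw [← h5] at e
  have hb : D (p a) (p b) (p a) = 0 := by simp [D]
  have hc : D (p a) (p b) (p b) = 0 := by simp only [D]; ring
  rw [hb, hc, mul_zero, mul_zero, add_zero, zero_add] at e
  have hγ : 0 < γ := by
    by_contra hh
    push Not at hh
    rcases lt_or_gt_of_ne d1 with k | k
    · have k2 : ¬ 0 < D (p a) (p b) (p y) := fun k' => absurd (h.2 k') (not_lt.2 k.le)
      have : 0 ≤ D (p a) (p b) (p y) := by rw [e]; nlinarith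
      exact d2 (by linarith [not_lt.1 k2])
    · have k2 := h.1 k
      have : D (p a) (p b) (p y) ≤ 0 := by rw [e]; exact mul_nonpos_of_nonpos_of_nonneg hh k.le
      linarith
  by_cases c1 : 0 ≤ α ∧ 0 ≤ β
  · right
    exact Le3 (by intro v; simp; tauto) ((In3 _ _ _ _).2 ⟨α, β, γ, c1.1, c1.2, hγ.le, h4, h5⟩)
  by_cases c2 : α ≤ 0 ∧ β ≤ 0
  · left
    refine Le3 (by intro v; simp; tauto) ((In3 _ _ _ _).2 ⟨-α / γ, -β / γ, 1 / γ,
      div_nonneg (by linarith) hγ.le, div_nonneg (by linarith) hγ.le, by positivity, ?_, ?_⟩)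
    · field_simp; linarith
    · rw [h5]
      have : p x = γ⁻¹ • (γ • p x) := by rw [smul_smul, inv_mul_cancel₀ hγ.ne', one_smul]
      conv_lhs => rw [this]
      simp only [div_eq_mul_inv]
      module
  exfalso
  rcases lt_or_ge α 0 with k | k
  · have : 0 < β := by
      by_contra k'; exact c2 ⟨k.le, not_lt.1 k'⟩
    exact cross_aux hp hσ hτ h4 h5 hγ k this
  · have k1 : β < 0 := by
      by_contra k'; exact c1 ⟨k, not_lt.1 k'⟩
    have k2 : 0 < α := by
      by_contra k'; exact c2 ⟨not_lt.1 k', k1.le⟩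
    exact cross_aux hp (a := b) (b := a) (x := x) (y := y) (by rwa [insert_comm])
      (by rwa [insert_comm]) (α := β) (β := α) (γ := γ) (by linarith) (by rw [h5]; module) hγ k1 k2

lemma propB (hp : Pl adj p) {a b x y : V} (hσ : VT adj {a, b, x}) (hτ : VT adj {a, b, y})
    (h : Le p {a, b, x} {a, b, y}) : 0 < D (p a) (p b) (p x) ↔ 0 < D (p a) (p b) (p y) := by
  have d1 := D_ne hp hσ
  obtain ⟨α, β, γ, a1, a2, a3, h4, h5⟩ := (In3 _ _ _ _).1 (h x (by simp))
  have e := D_comb (p a) (p b) (p a) (p b) (p y) h4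
  rw [← h5] at e
  have hb : D (p a) (p b) (p a) = 0 := by simp [D]
  have hc : D (p a) (p b) (p b) = 0 := by simp only [D]; ring
  rw [hb, hc, mul_zero, mul_zero, add_zero, zero_add] at e
  have hγ : 0 < γ := by
    rcases a3.eq_or_lt with k | k
    · rw [← k, zero_mul] at e; exact absurd e d1
    · exact k
  rw [e]
  exact mul_pos_iff_of_pos_left hγ

lemma exit_aux (hp : Pl adj p) {a b c u w : V} (hτ : VT adj {a, b, c}) (huw : adj {u, w})
    (hu : u ∉ ({a, b, c} : Finset V)) (hw : w ∉ ({a, b, c} : Finset V)) {t β γ : ℝ} (t0 : 0 ≤ t)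
    (t1 : t ≤ 1) (h2 : 0 ≤ β) (h3 : 0 ≤ γ) (h4 : β + γ = 1)
    (h5 : (1 - t) • p u + t • p w = β • p b + γ • p c) : False := by
  obtain ⟨hab, hbc, hac⟩ := ne_of_card3 hτ.1
  simp only [mem_insert, mem_singleton, not_or] at hu hw
  have hne : ({u, w} : Finset V) ≠ {b, c} := fun h => by
    have : u ∈ ({b, c} : Finset V) := h ▸ mem_insert_self _ _
    simp [hu.2.1, hu.2.2] at this
  obtain ⟨v, w1, w2, -⟩ := hp.cross u w b c _ huw (hτ.ad hbc (by simp) (by simp)) hne
    ⟨1 - t, t, by linarith, t0, by ring, rfl⟩ ⟨β, γ, h2, h3, h4, h5.symm⟩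
  simp only [mem_insert, mem_singleton] at w1 w2
  rcases w1 with rfl | rfl <;> tauto

lemma propC (hp : Pl adj p) {τ : Finset V} (hτ : VT adj τ) {u w : V} (huw : adj {u, w})
    (hu : u ∉ τ) (hin : In p (p u) τ) : In p (p w) τ := by
  by_cases hw : w ∈ τ
  · exact In_self hw
  obtain ⟨a, b, c, -, -, -, rfl⟩ := card_eq_three.1 hτ.1
  obtain ⟨α, β, γ, a1, a2, a3, h4, h5⟩ := (In3 _ _ _ _).1 hin
  obtain ⟨α', β', γ', h4', h5'⟩ := bary (D_ne hp hτ) (p w)
  by_contra hn
  rw [In3] at hn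
  have hτ2 : VT adj {b, c, a} := by convert hτ using 1; ext; simp; tauto
  have hτ3 : VT adj {c, a, b} := by convert hτ using 1; ext; simp; tauto
  have hu2 : u ∉ ({b, c, a} : Finset V) := by simp at hu ⊢; tauto
  have hu3 : u ∉ ({c, a, b} : Finset V) := by simp at hu ⊢; tauto
  have hw2 : w ∉ ({b, c, a} : Finset V) := by simp at hw ⊢; tauto
  have hw3 : w ∉ ({c, a, b} : Finset V) := by simp at hw ⊢; tauto
  -- the set of admissible times
  let S : Set ℝ := {t | 0 ≤ t ∧ t ≤ 1 ∧ 0 ≤ (1 - t) * α + t * α' ∧ 0 ≤ (1 - t) * β + t * β' ∧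
    0 ≤ (1 - t) * γ + t * γ'}
  have hS : IsClosed S := by
    simp only [S, Set.setOf_and]
    refine (isClosed_le (by fun_prop) (by fun_prop)).inter ((isClosed_le (by fun_prop) (by fun_prop)).inter
      ((isClosed_le (by fun_prop) (by fun_prop)).inter ((isClosed_le (by fun_prop) (by fun_prop)).inter
      (isClosed_le (by fun_prop) (by fun_prop)))))
  have hc : IsCompact S := isCompact_Icc.of_isClosed_subset hS (fun t ht => ⟨ht.1, ht.2.1⟩ : S ⊆ Set.Icc (0:ℝ) 1)
  obtain ⟨t, ⟨t0, t1, b1, b2, b3⟩, tmax⟩ := hc.exists_isGreatest ⟨0, by simp [S, a1, a2, a3]⟩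
  have hz : (1 - t) • p u + t • p w = ((1 - t) * α + t * α') • p a + ((1 - t) * β + t * β') • p b +
      ((1 - t) * γ + t * γ') • p c := by rw [h5, h5']; module
  have hsum : ((1 - t) * α + t * α') + ((1 - t) * β + t * β') + ((1 - t) * γ + t * γ') = 1 := by
    linear_combination (1 - t) * h4 + t * h4'
  rcases b1.eq_or_lt with k1 | k1
  · rw [← k1] at hz hsum
    exact exit_aux hp hτ huw hu hw t0 t1 b2 b3 (by linarith) (by rw [hz]; module)
  rcases b2.eq_or_lt with k2 | k2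
  · rw [← k2] at hz hsum
    exact exit_aux hp hτ2 huw hu2 hw2 t0 t1 b3 b1 (by linarith) (by rw [hz]; module)
  rcases b3.eq_or_lt with k3 | k3
  · rw [← k3] at hz hsum
    exact exit_aux hp hτ3 huw hu3 hw3 t0 t1 b1 b2 (by linarith) (by rw [hz]; module)
  rcases t1.eq_or_lt with k4 | k4
  · subst k4
    exact hn ⟨α', β', γ', by linarith, by linarith, by linarith, h4', h5'⟩
  have ev : ∀ᶠ r in nhds t, r < 1 ∧ 0 < (1 - r) * α + r * α' ∧ 0 < (1 - r) * β + r * β' ∧
      0 < (1 - r) * γ + r * γ' := by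
    have g : ∀ x y : ℝ, 0 < (1 - t) * x + t * y → ∀ᶠ r in nhds t, 0 < (1 - r) * x + r * y :=
      fun x y k => ContinuousAt.eventually_lt (f := fun _ => (0:ℝ))
        (g := fun r : ℝ => (1 - r) * x + r * y) continuousAt_const (by fun_prop) k
    have g0 : ∀ᶠ r in nhds t, r < 1 := gt_mem_nhds k4
    exact g0.and ((g _ _ k1).and ((g _ _ k2).and (g _ _ k3)))
  obtain ⟨r, ⟨r1, r2, r3, r4⟩, hr⟩ := ((ev.filter_mono nhdsWithin_le_nhds).and
    (self_mem_nhdsWithin (s := Set.Ioi t))).exists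
  have : r ≤ t := tmax ⟨le_trans t0 (le_of_lt hr), r1.le, r2.le, r3.le, r4.le⟩
  exact absurd hr (not_lt.2 this)

/-- vertex triangles -/
def XT (adj : Finset V → Prop) : Type _ := {t : Finset V // VT adj t}

noncomputable instance : Fintype (XT adj) := by unfold XT; infer_instance

def ord (hp : Pl adj p) : PartialOrder (XT adj) where
  le σ τ := Le p σ.1 τ.1
  le_refl σ := fun v hv => In_self hv
  le_trans _ _ _ := Le.trans
  le_antisymm σ τ h1 h2 := Subtype.ext (Le.antisymm hp σ.2 τ.2 h1 h2)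

noncomputable def idx (v : V) : ℕ := (Fintype.equivFin V v : ℕ)

lemma idx_pair {s : Finset V} (hs : s.card = 2) : ∃ a b, s = {a, b} ∧ idx a < idx b := by
  obtain ⟨a, b, hab, rfl⟩ := card_eq_two.1 hs
  have : idx a ≠ idx b := fun h => hab ((Fintype.equivFin V).injective (Fin.ext h))
  rcases lt_or_gt_of_ne this with h | h
  · exact ⟨a, b, rfl, h⟩
  · exact ⟨b, a, pair_comm _ _, h⟩

def sd (p : V → ℝ × ℝ) (t s : Finset V) : Prop :=
  ∃ u ∈ s, ∃ v ∈ s, ∃ w ∈ t, idx u < idx v ∧ 0 < D (p u) (p v) (p w)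

lemma sd_iff {a b x : V} (h : idx a < idx b) : sd p {a, b, x} {a, b} ↔ 0 < D (p a) (p b) (p x) := by
  constructor
  · rintro ⟨u, hu, v, hv, w, hw, h1, h2⟩
    simp only [mem_insert, mem_singleton] at hu hv hw
    have hb : D (p a) (p b) (p a) = 0 := by simp [D]
    have hc : D (p a) (p b) (p b) = 0 := by simp only [D]; ring
    rcases hu with rfl | rfl <;> rcases hv with rfl | rfl <;> try omega
    rcases hw with rfl | rfl | rfl
    · linarith
    · linarith
    · exact h2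
  · intro h2
    exact ⟨a, by simp, b, by simp, x, by simp, h, h2⟩

theorem round2 (hp : Pl adj p) (W : XT adj → ℚ) (hW0 : ∀ σ, 0 ≤ W σ) (m : Finset V → ℕ)
    (hW : ∀ s : Finset V, s.card = 2 → ∑ σ ∈ fs (fun σ : XT adj => s ⊆ σ.1), W σ = m s) :
    ∃ N : XT adj → ℕ, ∀ s : Finset V, s.card = 2 →
      ∑ σ ∈ fs (fun σ : XT adj => s ⊆ σ.1), N σ = 2 * m s := by
  letI := ord hp
  have hsys : Sys (fun σ : XT adj => σ.1) (fun σ s => sd p σ.1 s) := by
    refine ⟨fun σ => σ.2.1, ?_, ?_, ?_⟩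
    · rintro s hs ⟨σ, hσ⟩ ⟨τ, hτ⟩ h1 h2 h3
      obtain ⟨a, b, rfl, hab⟩ := idx_pair hs
      have hne : a ≠ b := by rintro rfl; omega
      obtain ⟨x, rfl⟩ := ex3' hσ.1 hne h1
      obtain ⟨y, rfl⟩ := ex3' hτ.1 hne h2
      simp only [sd_iff hab] at h3
      exact propA hp hσ hτ h3
    · rintro s hs ⟨σ, hσ⟩ ⟨τ, hτ⟩ h1 h2 h3
      obtain ⟨a, b, rfl, hab⟩ := idx_pair hs
      have hne : a ≠ b := by rintro rfl; omega
      obtain ⟨x, rfl⟩ := ex3' hσ.1 hne h1
      obtain ⟨y, rfl⟩ := ex3' hτ.1 hne h2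
      simp only [sd_iff hab]
      exact propB hp hσ hτ h3
    · rintro s hs ⟨σ, hσ⟩ ⟨τ, hτ⟩ ⟨ρ, hρ⟩ h1 h2 h3 h4
      obtain ⟨u, hu1, hu2⟩ := not_subset.1 h3
      intro w hw
      by_cases e : w = u
      · subst e; exact h1 w (h2 hu1)
      · exact propC hp hτ (hρ.ad (Ne.symm e) (h4 hu1) hw) hu2 (h1 u (h2 hu1))
  exact round hsys hW0 m hW

end Pool.Agent.H.MP_d6a58d_co
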